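import Pool.Agent.H5.W.Final

/-!
# Wishart equations on infinite-dimensional Hilbert spaces

If `Q` is injective, then every solution of the Wishart equation
`dX = (α Q + X A + A* X) dt + √X dW √Q + √Q dW* √X` on an infinite-dimensional separable real
Hilbert space has `α ∈ {0, 1, 2, ...}`, whatever the generator `A` of the strongly continuous
semigroup is. In particular this answers Q1 of the problem in the negative.

Idea of the proof. Fix `N` and test vectors `h_1, ..., h_N` in the domain of `A` that are
orthonormal for `2 ∫_0^1 ⟨Q S_{1-r} x, S_{1-r} y⟩ dr`. Testing the equation with the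
time-dependent vectors `g_a(r) = S_{1-r} h_a` and with the weights `U(r)` solving the matrix
Riccati equation `U' = 2 U q U`, `q_ab = ⟨Q g_a, g_b⟩`, makes
`exp (- ∑ U_ab(t) ⟨X_t g_a(t), g_b(t)⟩ + α ∫_0^t tr (U q))` a bounded local martingale. Hence the
`N × N` matrix `⟨X_1 h_a, h_b⟩` has the Laplace transform of a mixture of non-central Wishart
laws with shape `α / 2`, for every `N`, and the first three moments of the tilted laws force `α`
to be an integer. No injectivity of the semigroup is used. The exponential martingale is obtained
from the Riemann sums of the stochastic integrals, without a general Ito formula.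
-/

open MeasureTheory ProbabilityTheory
open scoped NNReal

namespace Pool.Agent.Results.MP_f9c8f0_pr.NoNonintegerWishart

/-- Let `H` be a real Hilbert space with a countably infinite orthonormal basis `e`, let `T` be
any strongly continuous semigroup on `H` with generator `A`, and let `Q` be bounded and
injective. If the Wishart equation with parameters `(α, Q, A)` has a weak solution `X` with
norm-continuous paths of bounded positive operators, then `α` is a nonnegative integer. -/
theorem result {H : Type*} [NormedAddCommGroup H] [InnerProductSpace ℝ H] [CompleteSpace H]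
    (e : HilbertBasis ℕ ℝ H) (T : Pool.Agent.H5.W.C0Semigroup H) (Q : H →L[ℝ] H)
    (hQ : Function.Injective Q) {Ω : Type*} {mΩ : MeasurableSpace Ω} (P : Measure Ω)
    [IsProbabilityMeasure P] (F : Filtration ℝ≥0 mΩ) (β : ℕ × ℕ → ℝ≥0 → Ω → ℝ)
    (X : ℝ≥0 → Ω → H →L[ℝ] H) (α : ℝ)
    (hX : Pool.Agent.H5.W.IsWishartSolution T Q α e P F β X) : ∃ n : ℕ, α = n :=
  Pool.Agent.H5.W.exists_nat_of_solution hQ hX

end Pool.Agent.Results.MP_f9c8f0_pr.NoNonintegerWishart
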